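import Pool.Agent.Helper524_CH.FinD

/-!
# The products of four values of the Liouville function in progression: the logarithmic averages stay below `1/2`

This concerns the case `k = 0`, `ℓ = 4` of the conjecture, for four shifts in arithmetic progression with a
difference prime to `6`, for example for four consecutive shifts.

From the starting files: the two point theorem at almost all scales with periodic weights
(`Pool.Agent.Y958.TC.two`). From Mathlib: `ArithmeticFunction.cardFactors n`, the number of the prime factors of `n`
with multiplicity.

Let `w(n) = λ(n) λ(n + d) λ(n + 2 d) λ(n + 3 d)`. As `w(n) w(n + d) = λ(n) λ(n + 4 d)`, the two point theorem implies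
that the logarithmic averages of `w` are at most `1/2 + o(1)` in absolute value. The bound `1/2` could be attained
only if the places with `w(n) = -1` were isolated and of density `1/4`. Here this is combined with the invariance
of the logarithmic averages under the dilations by `2` and by `3`: the average of `λ(n) λ(n + h) ⋯` over the even
`n` is the average of `λ(n) λ(n + h / 2) ⋯` over all `n` if all the `h` are even, and the same for the multiples
of `3`. These relations, in the residue classes modulo `12`, the two point theorem in these classes for the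
differences `4 d`, `8 d` and `12 d`, and an inequality between the `2 ^ 13` patterns of the `13` values
`w(n), w(n + d), …, w(n + 12 d)` (found by linear programming, verified by the kernel in
`Pool.Agent.Helper524_CH.Cert`) give the result.
-/

set_option autoImplicit false

namespace Pool.Agent.Results.MP_e6fa8b_nt.FourConsecutiveValues

open Finset

/-- The product `F(n)` of the problem for `k = 0`, `ℓ = 4` and the four shifts `a, a + d, a + 2 d, a + 3 d` of the
Liouville function. -/
noncomputable def F (a d n : ℕ) : ℝ := ∏ j ∈ range 4, (-1 : ℝ) ^ ArithmeticFunction.cardFactors (n + (a + d * j))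

/-- For every `a` and every `d ≥ 1` prime to `6` the upper limit, as `X → ∞`, of the logarithmic averages
`(1 / log X) ∑_{n ≤ X} F(n) / n` of `F(n) = λ(n + a) λ(n + a + d) λ(n + a + 2 d) λ(n + a + 3 d)` is at most
`0.4814`. -/
theorem result (a d : ℕ) (hd : Nat.Coprime d 6) (ε : ℝ) (hε : 0 < ε) :
    ∃ X₀ : ℕ, ∀ X : ℕ, X₀ ≤ X → ∑ n ∈ Icc 1 X, F a d n / n ≤ (0.4814 + ε) * Real.log X := by
  have hd2 : d % 2 = 1 := by
    by_contra h
    have h1 : 2 ∣ d := by omega
    have h2 : 2 ∣ Nat.gcd d 6 := Nat.dvd_gcd h1 (by norm_num)
    rw [hd] at h2
    omega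
  have hd3 : d % 3 ≠ 0 := by
    intro h
    have h1 : 3 ∣ d := by omega
    have h2 : 3 ∣ Nat.gcd d 6 := Nat.dvd_gcd h1 (by norm_num)
    rw [hd] at h2
    omega
  obtain ⟨X₀, h⟩ := Pool.Agent.Helper524_CH.main_shiftd a d (by omega) hd2 hd3 ε hε
  refine ⟨X₀, fun X hX => ?_⟩
  have h1 := h X hX
  have h2 : Pool.Agent.Helper524_CH.Ls
      (fun n => ((Pool.Agent.Helper524_CH.P (Pool.Agent.Helper524_CH.ld d (n + a)) 0 [0, 1, 2, 3] : ℤ) : ℝ)) X =
      ∑ n ∈ Icc 1 X, F a d n / n := by
    unfold Pool.Agent.Helper524_CH.Ls
    apply sum_congr rfl
    intro n _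
    congr 1
    unfold F Pool.Agent.Helper524_CH.P Pool.Agent.Helper524_CH.ld Pool.Agent.Helper524_CH.lm
    rw [prod_range_succ, prod_range_succ, prod_range_succ, prod_range_one]
    simp only [List.map_cons, List.map_nil, List.prod_cons, List.prod_nil, mul_one, zero_add]
    push_cast
    simp only [add_assoc, mul_assoc, mul_zero, add_zero]
  rw [h2] at h1
  norm_num at h1 ⊢
  exact h1

end Pool.Agent.Results.MP_e6fa8b_nt.FourConsecutiveValues
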