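import Pool.Agent.helper24_UT.Ch8

set_option autoImplicit false

/-!
# Joint correlations of `Λ` and `λ` with ONE shift of `λ` in a window of length `N ^ (1 / 3 + ε)`, in all progressions

All shifts of the von Mangoldt function and all shifts of the Liouville function but one are fixed and arbitrary. The remaining
shift `h'` runs over an ARBITRARY window `(c, c + H]` with `|c| ≤ C N`, `N ^ (1 / 3 + ε) ≤ H ≤ N`. For all but at most
`H / (log N) ^ A` of the `h'` the sums of `F(n) = θ(n) ∏ Λ(n + a_i) λ(n + h')` over the `n ≤ y`, `n ≡ r (mod q)` are small in the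
mean square over ALL residue classes to all moduli `q ≤ N / (log N) ^ B`: the sum of the squares of their absolute values is at
most `N ^ 2 / (log N) ^ A`, where the length `y = y(q, r) ≤ N` may be chosen in every class as unfavourably as possible. Here
`θ` is an arbitrary function bounded by `1`, for instance `θ(n) = ∏ λ(n + h'_j)` with the other shifts of `λ`. In particular
(`q = 1`) the average of the question over `n ≤ N` is at most `(log N) ^ (- A / 2)` in absolute value, if `ℓ ≥ 1`.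

Proof. `∑_{x ≤ X} |∑_{x < m ≤ x + K} λ(m) e(m α)| ^ 2 ≤ X K ^ 2 / (log X) ^ A` uniformly in `α`, for `K ≥ X ^ (1 / 3 + ε)`
(`Pool.Agent.helper24_UT.Ch.t_MKL`; identity of Heath-Brown, Type II sums and divisor sums on the minor arcs, mean values of
Dirichlet polynomials, van der Corput's estimate and a bound of the type of Vinogradov and Korobov on the major arcs; the
method of Mikawa). The square over all classes is expanded, `n ≡ n' (mod q)`, and the correlations of `λ(n + h')`, `λ(n' + h')`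
over the window of the shifts `h'` are bounded, on average over the pairs `n, n'`, by the exponential sums.
-/

namespace Pool.Agent.Results.MP_e6fa8b_nt.OneShiftInShortWindows

open Finset

/-- the Liouville function on the integers, `0` at the integers `m ≤ 0` -/
noncomputable def lam (m : ℤ) : ℝ := if 1 ≤ m then (-1) ^ (ArithmeticFunction.cardFactors m.toNat) else 0

/-- the sum of `θ(n) ∏_i Λ(n + a_i) λ(n + h)` over the `1 ≤ n ≤ y`, `n ≡ r (mod q)` (for `r < q`) -/
noncomputable def corr {k : ℕ} (θ : ℕ → ℂ) (a : Fin k → ℕ) (h : ℤ) (q r y : ℕ) : ℂ :=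
  ∑ n ∈ (Icc 1 y).filter (fun n => n % q = r),
    θ n * (∏ i, (ArithmeticFunction.vonMangoldt (n + a i) : ℂ)) * (lam ((n : ℤ) + h) : ℂ)

/-- For all `Q ≤ N / (log N) ^ B` and all choices of the lengths `y q r ≤ N` the sum of the `|corr| ^ 2` over all residue
classes to all moduli `q ≤ Q` is at most `N ^ 2 / (log N) ^ A`. -/
def Small {k : ℕ} (A B N : ℕ) (θ : ℕ → ℂ) (a : Fin k → ℕ) (h : ℤ) : Prop :=
  ∀ Q : ℕ, (Q : ℝ) * (Real.log N) ^ B ≤ N → ∀ y : ℕ → ℕ → ℕ, (∀ q r, y q r ≤ N) →
    ∑ q ∈ Icc 1 Q, ∑ r ∈ range q, ‖corr θ a h q r (y q r)‖ ^ 2 ≤ (N : ℝ) ^ 2 / (Real.log N) ^ A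

open Classical in
/-- **Joint correlations, one shift of the Liouville function in a short window, all progressions.** -/
theorem result (k A C : ℕ) (ε : ℝ) (hε : 0 < ε) : ∃ B N₀ : ℕ, ∀ N : ℕ, N₀ ≤ N → ∀ H : ℕ, (N : ℝ) ^ (1 / 3 + ε) ≤ H → H ≤ N →
    ∀ c : ℤ, |c| ≤ C * N → ∀ a : Fin k → ℕ, (∀ i, a i ≤ N ^ C) → ∀ θ : ℕ → ℂ, (∀ n, ‖θ n‖ ≤ 1) →
      (((Ioc c (c + H)).filter (fun h => ¬ Small A B N θ a h)).card : ℝ) ≤ H / (Real.log N) ^ A := by
  obtain ⟨e, he⟩ := exists_nat_gt (1 / ε)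
  have he1 : 1 ≤ e := by
    have h1 : 0 < 1 / ε := by positivity
    have h2 : (0 : ℝ) < e := h1.trans he
    exact_mod_cast h2
  have he0 : (0 : ℝ) < e := by exact_mod_cast he1
  have hle : 1 / (e : ℝ) ≤ ε := by
    rw [div_le_iff₀ he0]
    rw [div_lt_iff₀ hε] at he
    linarith
  obtain ⟨B, N₀, h⟩ := Pool.Agent.helper24_UT.Ch.t_R13 e (2 * A) (C + 2 * k) he1
  obtain ⟨N₁, hN₁⟩ := Filter.eventually_atTop.1
    ((Real.tendsto_log_atTop.comp tendsto_natCast_atTop_atTop).eventually_ge_atTop ((C : ℝ) + 2))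
  refine ⟨B, max (max N₀ N₁) 2, fun N hN H hH1 hH2 c hc a ha θ hθ => ?_⟩
  have hNN0 : N₀ ≤ N := (le_max_left _ _).trans ((le_max_left _ _).trans hN)
  have hNN1 : N₁ ≤ N := (le_max_right _ _).trans ((le_max_left _ _).trans hN)
  have hN2 : 2 ≤ N := (le_max_right _ _).trans hN
  have hL : (C : ℝ) + 2 ≤ Real.log N := hN₁ N hNN1
  have hC0 : (0 : ℝ) ≤ C := Nat.cast_nonneg C
  have hL1 : (1 : ℝ) ≤ Real.log N := by linarith
  have hL0 : (0 : ℝ) < Real.log N := by linarith
  have hN1 : (1 : ℝ) ≤ N := by exact_mod_cast (by omega : 1 ≤ N)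
  have hpow : (N : ℝ) ^ (1 / 3 + 1 / e : ℝ) ≤ H := by
    refine le_trans ?_ hH1
    apply Real.rpow_le_rpow_of_exponent_le hN1
    linarith
  -- the weights
  obtain ⟨w, hw⟩ : ∃ w : ℕ → ℂ, w = fun n => θ n * (∏ i, (ArithmeticFunction.vonMangoldt (n + a i) : ℂ)) := ⟨_, rfl⟩
  have hwb : ∀ n, n ≤ N → ‖w n‖ ≤ (Real.log N) ^ (C + 2 * k) := by
    intro n hn
    rw [hw]
    simp only
    rw [norm_mul, norm_prod]
    have h1 : ∀ i : Fin k, ‖(ArithmeticFunction.vonMangoldt (n + a i) : ℂ)‖ ≤ (Real.log N) ^ 2 := by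
      intro i
      have h2 : ‖(ArithmeticFunction.vonMangoldt (n + a i) : ℂ)‖ = ArithmeticFunction.vonMangoldt (n + a i) := by
        rw [Complex.norm_real, Real.norm_eq_abs, abs_of_nonneg ArithmeticFunction.vonMangoldt_nonneg]
      rw [h2]
      refine ArithmeticFunction.vonMangoldt_le_log.trans ?_
      have h3 : ((n + a i : ℕ) : ℝ) ≤ (N : ℝ) ^ (C + 2) := by
        have h4 : n + a i ≤ N ^ (C + 2) := by
          have h5 := ha i
          calc n + a i ≤ N ^ (C + 1) + N ^ (C + 1) := by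
                apply Nat.add_le_add
                · calc n ≤ N := hn
                    _ = N ^ 1 := (pow_one N).symm
                    _ ≤ N ^ (C + 1) := Nat.pow_le_pow_right (by omega) (by omega)
                · exact h5.trans (Nat.pow_le_pow_right (by omega) (by omega))
            _ = 2 * N ^ (C + 1) := by ring
            _ ≤ N * N ^ (C + 1) := Nat.mul_le_mul_right _ hN2
            _ = N ^ (C + 2) := by ring
        exact_mod_cast h4
      rcases Nat.eq_zero_or_pos (n + a i) with h0 | h0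
      · rw [h0, Nat.cast_zero, Real.log_zero]; positivity
      · calc Real.log ((n + a i : ℕ) : ℝ) ≤ Real.log ((N : ℝ) ^ (C + 2)) :=
              Real.log_le_log (by exact_mod_cast h0) h3
          _ = ((C : ℝ) + 2) * Real.log N := by rw [Real.log_pow]; push_cast; ring
          _ ≤ Real.log N * Real.log N := by gcongr
          _ = (Real.log N) ^ 2 := by ring
    calc ‖θ n‖ * ∏ i, ‖(ArithmeticFunction.vonMangoldt (n + a i) : ℂ)‖
        ≤ 1 * ∏ _i : Fin k, (Real.log N) ^ 2 := by
          apply mul_le_mul (hθ n) (prod_le_prod (fun i _ => norm_nonneg _) fun i _ => h1 i)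
            (prod_nonneg fun i _ => norm_nonneg _) zero_le_one
      _ = (Real.log N) ^ (2 * k) := by
          rw [one_mul, prod_const, card_univ, Fintype.card_fin, ← pow_mul]
      _ ≤ (Real.log N) ^ (C + 2 * k) := pow_le_pow_right₀ hL1 (by omega)
  have hc' : |(c : ℝ)| ≤ ((C + 2 * k : ℕ) : ℝ) * N := by
    have h1 : |(c : ℝ)| ≤ C * N := by exact_mod_cast hc
    refine h1.trans ?_
    push_cast
    have : (0 : ℝ) ≤ 2 * (k : ℝ) := by positivity
    nlinarith
  -- the largest Q
  obtain ⟨Q₁, hQ₁⟩ : ∃ Q₁ : ℕ, Q₁ = ⌊(N : ℝ) / (Real.log N) ^ B⌋₊ := ⟨_, rfl⟩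
  have hLB : (0 : ℝ) < (Real.log N) ^ B := by positivity
  have hQ₁' : (Q₁ : ℝ) * (Real.log N) ^ B ≤ N := by
    rw [hQ₁, ← le_div_iff₀ hLB]
    exact Nat.floor_le (by positivity)
  -- bad choices
  have hbad : ∀ h : ℤ, ∃ y : ℕ → ℕ → ℕ, (∀ q r, y q r ≤ N) ∧ (¬ Small A B N θ a h →
      (N : ℝ) ^ 2 / (Real.log N) ^ A < ∑ q ∈ Icc 1 Q₁, ∑ r ∈ range q, ‖corr θ a h q r (y q r)‖ ^ 2) := by
    intro h
    by_cases hs : Small A B N θ a h
    · exact ⟨fun _ _ => 0, fun _ _ => Nat.zero_le _, fun h' => absurd hs h'⟩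
    · unfold Small at hs
      push Not at hs
      obtain ⟨Q, hQ, y, hy, hlt⟩ := hs
      refine ⟨y, hy, fun _ => lt_of_lt_of_le hlt ?_⟩
      apply sum_le_sum_of_subset_of_nonneg
      · apply Icc_subset_Icc le_rfl
        rw [hQ₁]
        apply Nat.le_floor
        rw [le_div_iff₀ hLB]
        exact hQ
      · intro q _ _
        exact sum_nonneg fun r _ => by positivity
  choose y hy1 hy2 using hbad
  have hmain := h N hNN0 H hpow hH2 c hc' Q₁ hQ₁' Pool.Agent.helper24_UT.liI (Or.inl rfl) w hwb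
    (fun j q r => y (c + j) q r) (fun j q r => hy1 _ q r)
  have hsum : ∑ j ∈ Ioc c (c + H), ∑ q ∈ Icc 1 Q₁, ∑ r ∈ range q, ‖corr θ a j q r (y j q r)‖ ^ 2 ≤
      (H : ℝ) * (N : ℝ) ^ 2 / (Real.log N) ^ (2 * A) := by
    refine le_trans (le_of_eq ?_) hmain
    symm
    apply sum_bij (fun (j : ℕ) _ => c + (j : ℤ))
    · intro j hj
      rw [mem_Icc] at hj
      rw [mem_Ioc]
      constructor
      · have : (1 : ℤ) ≤ j := by exact_mod_cast hj.1
        omega
      · have : (j : ℤ) ≤ H := by exact_mod_cast hj.2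
        omega
    · intro j _ j' _ hjj
      have : (j : ℤ) = j' := by linarith
      exact_mod_cast this
    · intro b hb
      rw [mem_Ioc] at hb
      refine ⟨(b - c).toNat, ?_, ?_⟩
      · rw [mem_Icc]
        omega
      · omega
    · intro j _
      apply sum_congr rfl
      intro q _
      apply sum_congr rfl
      intro r _
      congr 2
      unfold corr
      apply sum_congr rfl
      intro n _
      rw [hw]
      simp only
      congr 1
      have h1 : (n : ℤ) + c + j = (n : ℤ) + (c + (j : ℤ)) := by ring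
      rw [h1]
      rfl
  -- Markov
  have hpos : 0 < (N : ℝ) ^ 2 / (Real.log N) ^ A := by positivity
  have hcard : (((Ioc c (c + H)).filter (fun h => ¬ Small A B N θ a h)).card : ℝ) * ((N : ℝ) ^ 2 / (Real.log N) ^ A) ≤
      (H : ℝ) * (N : ℝ) ^ 2 / (Real.log N) ^ (2 * A) := by
    refine le_trans ?_ hsum
    calc (((Ioc c (c + H)).filter (fun h => ¬ Small A B N θ a h)).card : ℝ) * ((N : ℝ) ^ 2 / (Real.log N) ^ A)
        = ∑ _j ∈ (Ioc c (c + H)).filter (fun h => ¬ Small A B N θ a h), (N : ℝ) ^ 2 / (Real.log N) ^ A := by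
          rw [sum_const, nsmul_eq_mul]
      _ ≤ ∑ j ∈ (Ioc c (c + H)).filter (fun h => ¬ Small A B N θ a h),
            ∑ q ∈ Icc 1 Q₁, ∑ r ∈ range q, ‖corr θ a j q r (y j q r)‖ ^ 2 := by
          apply sum_le_sum
          intro j hj
          exact (hy2 j (mem_filter.1 hj).2).le
      _ ≤ _ := by
          apply sum_le_sum_of_subset_of_nonneg (filter_subset _ _)
          intro j _ _
          exact sum_nonneg fun q _ => sum_nonneg fun r _ => by positivity
  have h9 : (H : ℝ) * (N : ℝ) ^ 2 / (Real.log N) ^ (2 * A) =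
      (H : ℝ) / (Real.log N) ^ A * ((N : ℝ) ^ 2 / (Real.log N) ^ A) := by
    rw [two_mul, pow_add]
    field_simp
  rw [h9] at hcard
  exact le_of_mul_le_mul_right hcard hpos

end Pool.Agent.Results.MP_e6fa8b_nt.OneShiftInShortWindows
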