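import Pool.Agent.H629Chowla.Final2

/-!
# Joint correlations of the von Mangoldt function and the randomly modified Liouville function

The value of Liouville's function at every prime `p` is changed from `-1` to `1` with a probability
between `δ p` and `1 - δ p`, independently for all `p`, where `δ` is nonincreasing and
`δ N * log log N / log log log N → ∞` (for example a constant in `(0, 1 / 2]`, or
`(log log p) ^ (-1 / 2)`). Then almost surely all the joint correlations of any number of values of
the von Mangoldt function and of the resulting completely multiplicative function, with at least one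
value of the latter at a separate shift, are `o(N)`: the whole case `ℓ ≥ 1` of the conjecture.
-/

open Finset Filter Topology MeasureTheory ProbabilityTheory

namespace Pool.Agent.Results.MP_e6fa8b_nt.RandomSignChangesJoint

open Classical in
/-- The completely multiplicative function with the value `1` at the primes of `Q` and the value
`-1` at all the other primes (Liouville's function if `Q` is empty). -/
noncomputable def lam (Q : Set ℕ) (n : ℕ) : ℝ :=
  (n.primeFactorsList.map (fun p => if p ∈ Q then (1 : ℝ) else -1)).prod

/-- **The case `ℓ ≥ 1` of the joint correlation conjecture after random sign changes.**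
`A` is the set of the shifts of the von Mangoldt function, `H` the set of the shifts of the modified
Liouville function, `w` is any fixed sequence of real weights bounded by `1` (for example `1`). -/
theorem result (Ω : Type*) [MeasurableSpace Ω] (μ : Measure Ω) [IsProbabilityMeasure μ]
    (Q : Ω → Set ℕ) (hmeas : ∀ p, MeasurableSet {ω | p ∈ Q ω})
    (hindep : iIndepSet (fun p => {ω | p ∈ Q ω}) μ)
    (δ : ℕ → ℝ) (hanti : Antitone δ) (hnonneg : ∀ n, 0 ≤ δ n)
    (hslow : Tendsto (fun N : ℕ => δ N * Real.log (Real.log N) / Real.log (Real.log (Real.log N)))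
      atTop atTop)
    (hprob : ∀ p : ℕ, p.Prime → δ p ≤ μ.real {ω | p ∈ Q ω} ∧ μ.real {ω | p ∈ Q ω} ≤ 1 - δ p)
    (w : ℕ → ℝ) (hw : ∀ n, |w n| ≤ 1) :
    ∀ᵐ ω ∂μ, ∀ A H : Finset ℕ, ¬ H ⊆ A →
      Tendsto (fun N : ℕ => (∑ n ∈ Icc 1 N, w n * (∏ a ∈ A, ArithmeticFunction.vonMangoldt (n + a)) *
        ∏ a ∈ H, lam (Q ω) (n + a)) / N) atTop (𝓝 0) :=
  Pool.Agent.H629Chowla.joint_corr_ae Q hmeas hindep δ hanti hnonneg hslow hprob w hw

end Pool.Agent.Results.MP_e6fa8b_nt.RandomSignChangesJoint
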