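import Mathlib
import Pool.Agent.TP975.LR.Lf2

/-!
Joint correlations of the von Mangoldt and Liouville functions at the values of almost all polynomials.
-/

set_option autoImplicit false

namespace Pool.Agent.Results.MP_e6fa8b_nt.ValuesOfPolynomials

open Finset

/-- the Liouville function on the integers, `lam (-m) = lam m`, `lam 0 = 0` -/
noncomputable def lam (m : ℤ) : ℝ := if m = 0 then 0 else (-1) ^ ArithmeticFunction.cardFactors m.natAbs

/-- the von Mangoldt function on the integers, `vM (-m) = vM m`, `vM 0 = 0` -/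
noncomputable def vM (m : ℤ) : ℝ := ArithmeticFunction.vonMangoldt m.natAbs

/-- the value at `t` of the polynomial with the coefficients `a 0, ..., a d` -/
def value {d : ℕ} (a : Fin (d + 1) → ℤ) (t : ℤ) : ℤ := ∑ c, a c * t ^ (c : ℕ)

/-- the `m`-tuples of polynomials of degree at most `d` with coefficients in `[-H, H]` -/
noncomputable def box (m d H : ℕ) : Finset (Fin m → Fin (d + 1) → ℤ) :=
  Fintype.piFinset fun _ => Fintype.piFinset fun _ => Icc (-(H : ℤ)) H

/-- the product of the `vM (f_(s i) (n + h i))`, `i < k`, and the `lam (f_(s' j) (n + h' j))`, `j < l` -/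
noncomputable def F {m d k l : ℕ} (f : Fin m → Fin (d + 1) → ℤ) (s : Fin k → Fin m) (h : Fin k → ℤ)
    (s' : Fin l → Fin m) (h' : Fin l → ℤ) (n : ℤ) : ℝ :=
  (∏ i, vM (value (f (s i)) (n + h i))) * ∏ j, lam (value (f (s' j)) (n + h' j))

/-- the pairs `(s i, h i)` and `(s' j, h' j)` are pairwise distinct, and every index `c` is the first entry of at most
`d` of them -/
def Distinct {m k l : ℕ} (d : ℕ) (s : Fin k → Fin m) (h : Fin k → ℤ) (s' : Fin l → Fin m) (h' : Fin l → ℤ) : Prop :=
  (∀ i i', i ≠ i' → s i = s i' → h i ≠ h i') ∧ (∀ j j', j ≠ j' → s' j = s' j' → h' j ≠ h' j') ∧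
    (∀ i j, s i = s' j → h i ≠ h' j) ∧
    ∀ c, (univ.filter (fun i => s i = c)).card + (univ.filter (fun j => s' j = c)).card ≤ d

open Classical in
/-- For almost all `m`-tuples `f` of polynomials of degree at most `d` with coefficients in `[-H, H]` the joint
correlation `∑ w(n) F(n)` of `k` values of the von Mangoldt function and `l ≥ 1` values of the Liouville function at
`f_c (n + h)`, at most `d` for each `c`, over ANY set `T` of at least `log ^ (k + ε) H` integers of size at most
`log ^ A H` and with ANY weights `|w(n)| ≤ 1`, is at most `|T| / log ^ η H`; the shifts are any integers of size at most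
`log ^ A H`. The proportion of the exceptional `f` is at most `log ^ (-η) H`. -/
theorem result (m d k l A : ℕ) (hl : 1 ≤ l) (ε : ℝ) (hε : 0 < ε) : ∃ η : ℝ, 0 < η ∧ ∃ H₀ : ℕ, ∀ H : ℕ, H₀ ≤ H →
    ∀ (s : Fin k → Fin m) (h : Fin k → ℤ) (s' : Fin l → Fin m) (h' : Fin l → ℤ), Distinct d s h s' h' →
    (∀ i, |(h i : ℝ)| ≤ Real.log H ^ A) → (∀ j, |(h' j : ℝ)| ≤ Real.log H ^ A) →
    ∀ T : Finset ℤ, (∀ n ∈ T, |(n : ℝ)| ≤ Real.log H ^ A) → Real.log H ^ ((k : ℝ) + ε) ≤ T.card →
    ∀ w : ℤ → ℝ, (∀ n, |w n| ≤ 1) →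
    (((box m d H).filter (fun f => T.card / Real.log H ^ η < |∑ n ∈ T, w n * F f s h s' h' n|)).card : ℝ) ≤
      (box m d H).card / Real.log H ^ η := by
  obtain ⟨η, hη, H0, h0⟩ := Pool.Agent.TP975.LR.jointJ m d k l A hl ε hε
  refine ⟨η, hη, H0, fun H hH s h s' h' hD hh hh' T hT hTc w hw => ?_⟩
  obtain ⟨d1, d2, d3, d4⟩ := hD
  have h1 := h0 H hH s h s' h' (by
    rintro (i | j)
    · exact hh i
    · exact hh' j) (by
    rintro (i | j) (i' | j') hne heq
    · exact d1 i i' (fun hc => hne (by rw [hc])) heq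
    · exact d3 i j' heq
    · exact (d3 i' j heq.symm).symm
    · exact d2 j j' (fun hc => hne (by rw [hc])) heq) (by
    intro c
    have e : univ.filter (fun x => Sum.elim s s' x = c) = (univ.filter (fun i => s i = c)).disjSum
        (univ.filter (fun j => s' j = c)) := by
      ext x
      rw [mem_filter, mem_disjSum]
      rcases x with x | x
      · simp
      · simp
    rw [e, card_disjSum]
    exact d4 c) T hT hTc w hw
  exact h1

end Pool.Agent.Results.MP_e6fa8b_nt.ValuesOfPolynomials
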